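import Pool.Agent.H23.LC.Targets

/-!
# (TH) The measure of the angles
-/

set_option autoImplicit false

open NumberField NumberField.InfinitePlace NumberField.Units
  NumberField.Units.dirichletUnitTheorem MeasureTheory Set Filter Complex
open scoped nonZeroDivisors ENNReal

namespace Pool.Agent.H33.GLB

open Pool.Agent.H25.HK Pool.Agent.H23.LB Pool.Agent.H23.LC

theorem sin_small {φ ε : ℝ} (h0 : 0 ≤ φ) (h1 : φ ≤ Real.pi) (h : |Real.sin φ| ≤ ε) :
    φ ≤ Real.pi / 2 * ε ∨ Real.pi - Real.pi / 2 * ε ≤ φ := by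
  have hπ := Real.pi_pos
  have hs : 0 ≤ Real.sin φ := Real.sin_nonneg_of_nonneg_of_le_pi h0 h1
  rw [abs_of_nonneg hs] at h
  rcases le_total φ (Real.pi / 2) with h2 | h2
  · left
    have h3 := Real.mul_le_sin h0 h2
    have h4 : 2 / Real.pi * φ ≤ ε := h3.trans h
    have h5 := mul_le_mul_of_nonneg_left h4 (show 0 ≤ Real.pi / 2 by positivity)
    calc φ = Real.pi / 2 * (2 / Real.pi * φ) := by field_simp
      _ ≤ _ := h5
  · right
    have h3 := Real.mul_le_sin (show 0 ≤ Real.pi - φ by linarith) (by linarith)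
    rw [Real.sin_pi_sub] at h3
    have h4 : 2 / Real.pi * (Real.pi - φ) ≤ ε := h3.trans h
    have h5 := mul_le_mul_of_nonneg_left h4 (show 0 ≤ Real.pi / 2 by positivity)
    have h6 : Real.pi / 2 * (2 / Real.pi * (Real.pi - φ)) = Real.pi - φ := by field_simp
    linarith

theorem exp_dist (a b : ℝ) : ‖cexp (a * I) - cexp (b * I)‖ = 2 * |Real.sin ((a - b) / 2)| := by
  have h1 : cexp (a * I) - cexp (b * I) =
      cexp (((a + b) / 2 : ℝ) * I) * (2 * (Real.sin ((a - b) / 2) : ℂ) * I) := by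
    have e1 : cexp (a * I) = cexp (((a + b) / 2 : ℝ) * I) * cexp (((a - b) / 2 : ℝ) * I) := by
      rw [← Complex.exp_add]
      congr 1
      push_cast
      ring
    have e2 : cexp (b * I) = cexp (((a + b) / 2 : ℝ) * I) * cexp (-(((a - b) / 2 : ℝ) * I)) := by
      rw [← Complex.exp_add]
      congr 1
      push_cast
      ring
    rw [e1, e2, ← mul_sub]
    congr 1
    rw [Complex.ofReal_sin, Complex.sin, neg_mul]
    have hI : I * I = -1 := Complex.I_mul_I
    linear_combination (-(cexp (-(((((a - b) / 2 : ℝ) : ℂ)) * I)) -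
      cexp ((((a - b) / 2 : ℝ) : ℂ) * I))) * hI
  rw [h1, norm_mul, Complex.norm_exp_ofReal_mul_I, one_mul, norm_mul, norm_mul, Complex.norm_I,
    mul_one, Complex.norm_real, Real.norm_eq_abs]
  norm_num

/-- the set of the angles at a complex place -/
theorem vol_complex {w : ℂ} {δ : ℝ} (h0 : 0 < δ) (hδ : δ ≤ 1 / 4) :
    volume {θ : ℝ | θ ∈ Icc (0 : ℝ) (2 * Real.pi) ∧ ‖w * cexp (θ * I) - 1‖ ≤ δ} ≤
      ENNReal.ofReal (8 * Real.pi) * ENNReal.ofReal δ := by
  have hπ := Real.pi_pos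
  rcases Set.eq_empty_or_nonempty {θ : ℝ | θ ∈ Icc (0 : ℝ) (2 * Real.pi) ∧
    ‖w * cexp (θ * I) - 1‖ ≤ δ} with he | ⟨θ₀, h1, h2⟩
  · rw [he, measure_empty]
    exact zero_le
  · have hw : 3 / 4 ≤ ‖w‖ := by
      have h3 : ‖w * cexp (θ₀ * I)‖ = ‖w‖ := by
        rw [norm_mul, Complex.norm_exp_ofReal_mul_I, mul_one]
      have h4 : ‖(1 : ℂ)‖ ≤ ‖w * cexp (θ₀ * I)‖ + ‖w * cexp (θ₀ * I) - 1‖ := by
        have := norm_sub_le (w * cexp (θ₀ * I)) (w * cexp (θ₀ * I) - 1)
        rwa [sub_sub_cancel] at this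
      rw [norm_one, h3] at h4
      linarith
    obtain ⟨c, hc⟩ : ∃ c, c = 4 * Real.pi / 3 * δ := ⟨_, rfl⟩
    have hsub : {θ : ℝ | θ ∈ Icc (0 : ℝ) (2 * Real.pi) ∧ ‖w * cexp (θ * I) - 1‖ ≤ δ} ⊆
        (Icc (θ₀ - c) (θ₀ + c) ∪ Icc (θ₀ + 2 * Real.pi - c) (θ₀ + 2 * Real.pi + c)) ∪
          Icc (θ₀ - 2 * Real.pi - c) (θ₀ - 2 * Real.pi + c) := by
      rintro θ ⟨g1, g2⟩
      have g3 : ‖w * cexp (θ * I) - w * cexp (θ₀ * I)‖ ≤ 2 * δ := by
        have : w * cexp (θ * I) - w * cexp (θ₀ * I) =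
            (w * cexp (θ * I) - 1) - (w * cexp (θ₀ * I) - 1) := by ring
        rw [this]
        refine (norm_sub_le _ _).trans ?_
        linarith
      rw [← mul_sub, norm_mul, exp_dist] at g3
      have g4 : |Real.sin ((θ - θ₀) / 2)| ≤ 4 / 3 * δ := by
        have := mul_le_mul_of_nonneg_right hw (show 0 ≤ 2 * |Real.sin ((θ - θ₀) / 2)| by positivity)
        linarith
      obtain ⟨g5, g6⟩ := g1
      obtain ⟨g7, g8⟩ := h1
      rcases le_total θ₀ θ with h | h
      · rcases sin_small (show 0 ≤ (θ - θ₀) / 2 by linarith) (by linarith) g4 with h5 | h5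
        · left; left
          constructor <;> nlinarith
        · left; right
          constructor <;> nlinarith
      · have g9 : |Real.sin ((θ₀ - θ) / 2)| ≤ 4 / 3 * δ := by
          have : (θ₀ - θ) / 2 = -((θ - θ₀) / 2) := by ring
          rw [this, Real.sin_neg, abs_neg]
          exact g4
        rcases sin_small (show 0 ≤ (θ₀ - θ) / 2 by linarith) (by linarith) g9 with h5 | h5
        · left; left
          constructor <;> nlinarith
        · right
          constructor <;> nlinarith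
    have hv : ∀ a : ℝ, volume (Icc (a - c) (a + c)) = ENNReal.ofReal (2 * c) := by
      intro a
      rw [Real.volume_Icc]
      congr 1
      ring
    have hc0 : 0 ≤ 2 * c := by
      rw [hc]
      positivity
    calc volume {θ : ℝ | θ ∈ Icc (0 : ℝ) (2 * Real.pi) ∧ ‖w * cexp (θ * I) - 1‖ ≤ δ}
        ≤ volume ((Icc (θ₀ - c) (θ₀ + c) ∪ Icc (θ₀ + 2 * Real.pi - c) (θ₀ + 2 * Real.pi + c)) ∪
          Icc (θ₀ - 2 * Real.pi - c) (θ₀ - 2 * Real.pi + c)) := measure_mono hsub
      _ ≤ (volume (Icc (θ₀ - c) (θ₀ + c)) +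
          volume (Icc (θ₀ + 2 * Real.pi - c) (θ₀ + 2 * Real.pi + c))) +
          volume (Icc (θ₀ - 2 * Real.pi - c) (θ₀ - 2 * Real.pi + c)) :=
          (measure_union_le _ _).trans (add_le_add (measure_union_le _ _) le_rfl)
      _ = ENNReal.ofReal (8 * Real.pi * δ) := by
          rw [hv, hv, hv, ← ENNReal.ofReal_add hc0 hc0,
            ← ENNReal.ofReal_add (add_nonneg hc0 hc0) hc0]
          congr 1
          rw [hc]
          ring
      _ = ENNReal.ofReal (8 * Real.pi) * ENNReal.ofReal δ := ENNReal.ofReal_mul (by positivity)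

theorem log_small {ρ δ : ℝ} (hδ : δ ≤ 1 / 4) (h : |ρ - 1| ≤ δ) : |Real.log ρ| ≤ 2 * δ := by
  rw [abs_le] at h
  have hρ : 0 < ρ := by linarith [h.1]
  have h0 : 0 ≤ δ := by linarith [h.1, h.2]
  rw [abs_le]
  constructor
  · have h1 := Real.one_sub_inv_le_log_of_pos hρ
    have h2 : ρ⁻¹ ≤ 1 + 2 * δ := by
      rw [inv_le_comm₀ hρ (by linarith), ← one_div, div_le_iff₀ (by linarith)]
      nlinarith [h.1]
    linarith
  · have h1 := Real.log_le_sub_one_of_pos hρ
    linarith [h.2]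

section
variable {K : Type} [Field K] [NumberField K]

omit [NumberField K] in
theorem an_meas (v : InfinitePlace K) : Measurable (an v) := by
  unfold an
  by_cases h : v.IsReal
  · simp only [h, if_true]
    exact Measurable.ite measurableSet_Iio measurable_const measurable_const
  · simp only [h, if_false]
    fun_prop

omit [NumberField K] in
theorem an_norm (v : InfinitePlace K) (θ : ℝ) : ‖an v θ‖ = 1 := by
  unfold an
  split_ifs
  · exact norm_one
  · rw [norm_neg, norm_one]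
  · exact Complex.norm_exp_ofReal_mul_I θ

omit [NumberField K] in
open scoped Classical in
theorem vol_place (v : InfinitePlace K) (w : ℂ) {δ : ℝ} (h0 : 0 < δ) (hδ : δ ≤ 1 / 4) :
    volume {θ : ℝ | θ ∈ Icc (0 : ℝ) (2 * Real.pi) ∧ ‖w * an v θ - 1‖ ≤ δ} ≤
      ENNReal.ofReal (8 * Real.pi) * (if v.IsReal then 1 else ENNReal.ofReal δ) := by
  have hπ := Real.pi_pos
  by_cases h : v.IsReal
  · rw [if_pos h, mul_one]
    calc volume {θ : ℝ | θ ∈ Icc (0 : ℝ) (2 * Real.pi) ∧ ‖w * an v θ - 1‖ ≤ δ}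
        ≤ volume (Icc (0 : ℝ) (2 * Real.pi)) := measure_mono fun θ hθ => hθ.1
      _ = ENNReal.ofReal (2 * Real.pi - 0) := Real.volume_Icc
      _ ≤ _ := ENNReal.ofReal_le_ofReal (by linarith)
  · rw [if_neg h]
    have e : ∀ θ, an v θ = cexp (θ * I) := by
      intro θ
      unfold an
      rw [if_neg h]
    simp only [e]
    exact vol_complex h0 hδ

open scoped Classical in
/-- the measure of the angles for one point -/
theorem vol_all (w : InfinitePlace K → ℂ) {δ : ℝ} (h0 : 0 < δ) (hδ : δ ≤ 1 / 4) :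
    (Measurable fun θ : InfinitePlace K → ℝ =>
      (if ∀ v, ‖w v * an v (θ v) - 1‖ ≤ δ then (1 : ℝ≥0∞) else 0)) ∧
    ∫⁻ θ in An K, (if ∀ v, ‖w v * an v (θ v) - 1‖ ≤ δ then (1 : ℝ≥0∞) else 0) ≤
      ENNReal.ofReal ((8 * Real.pi) ^ Module.finrank ℚ K * δ ^ nrComplexPlaces K) *
        (if ∀ v, |Real.log ‖w v‖| ≤ 2 * δ then 1 else 0) := by
  have hπ := Real.pi_pos
  obtain ⟨A, hA⟩ : ∃ A : InfinitePlace K → Set ℝ, A = fun v =>
    {θ : ℝ | θ ∈ Icc (0 : ℝ) (2 * Real.pi) ∧ ‖w v * an v θ - 1‖ ≤ δ} := ⟨_, rfl⟩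
  have hms : MeasurableSet {θ : InfinitePlace K → ℝ | ∀ v, ‖w v * an v (θ v) - 1‖ ≤ δ} := by
    have : {θ : InfinitePlace K → ℝ | ∀ v, ‖w v * an v (θ v) - 1‖ ≤ δ} =
        ⋂ v, {θ : InfinitePlace K → ℝ | ‖w v * an v (θ v) - 1‖ ≤ δ} := by
      ext θ
      simp
    rw [this]
    refine MeasurableSet.iInter fun v => ?_
    refine measurableSet_le ?_ measurable_const
    exact ((((an_meas v).comp (measurable_pi_apply v)).const_mul (w v)).sub_const 1).norm
  refine ⟨Measurable.ite hms measurable_const measurable_const, ?_⟩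
  have h1 : ∫⁻ θ in An K, (if ∀ v, ‖w v * an v (θ v) - 1‖ ≤ δ then (1 : ℝ≥0∞) else 0) =
      volume (Set.univ.pi A) := by
    have e : (fun θ : InfinitePlace K → ℝ =>
        (if ∀ v, ‖w v * an v (θ v) - 1‖ ≤ δ then (1 : ℝ≥0∞) else 0)) =
        Set.indicator {θ : InfinitePlace K → ℝ | ∀ v, ‖w v * an v (θ v) - 1‖ ≤ δ} 1 := by
      funext θ
      rw [Set.indicator_apply]
      rfl
    rw [e, lintegral_indicator_one hms, Measure.restrict_apply hms]
    congr 1
    ext θ
    rw [Set.mem_inter_iff, Set.mem_univ_pi, hA]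
    unfold An
    rw [Set.mem_univ_pi]
    constructor
    · rintro ⟨g1, g2⟩ v
      exact ⟨g2 v, g1 v⟩
    · intro g
      exact ⟨fun v => (g v).2, fun v => (g v).1⟩
  rw [h1, volume_pi_pi]
  by_cases hB : ∀ v, |Real.log ‖w v‖| ≤ 2 * δ
  · rw [if_pos hB, mul_one]
    calc ∏ v, volume (A v) ≤ ∏ v : InfinitePlace K,
          (ENNReal.ofReal (8 * Real.pi) * (if v.IsReal then 1 else ENNReal.ofReal δ)) := by
          refine Finset.prod_le_prod' fun v _ => ?_
          rw [hA]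
          exact vol_place v (w v) h0 hδ
      _ = ENNReal.ofReal (8 * Real.pi) ^ Fintype.card (InfinitePlace K) *
          ENNReal.ofReal δ ^ nrComplexPlaces K := by
          rw [Finset.prod_mul_distrib, Finset.prod_const, Finset.card_univ, Finset.prod_ite,
            Finset.prod_const_one, one_mul, Finset.prod_const]
          congr 2
          unfold nrComplexPlaces
          rw [Fintype.card_subtype]
          congr 1
          ext v
          simp [InfinitePlace.not_isReal_iff_isComplex]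
      _ = ENNReal.ofReal ((8 * Real.pi) ^ Fintype.card (InfinitePlace K) *
          δ ^ nrComplexPlaces K) := by
          rw [ENNReal.ofReal_mul (p := (8 * Real.pi) ^ Fintype.card (InfinitePlace K))
            (by positivity), ENNReal.ofReal_pow (by positivity), ENNReal.ofReal_pow h0.le]
      _ ≤ _ := by
          refine ENNReal.ofReal_le_ofReal ?_
          refine mul_le_mul_of_nonneg_right ?_ (by positivity)
          refine pow_le_pow_right₀ ?_ ?_
          · linarith [Real.pi_gt_three]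
          · have g1 := InfinitePlace.card_eq_nrRealPlaces_add_nrComplexPlaces (K := K)
            have g2 := InfinitePlace.card_add_two_mul_card_eq_rank K
            omega
  · rw [if_neg hB, mul_zero]
    push Not at hB
    obtain ⟨v, hv⟩ := hB
    have he : A v = ∅ := by
      rw [Set.eq_empty_iff_forall_notMem, hA]
      rintro θ ⟨-, g⟩
      refine absurd (log_small (ρ := ‖w v‖) hδ ?_) (not_le.2 hv)
      have e1 : ‖w v‖ = ‖w v * an v θ‖ := by rw [norm_mul, an_norm, mul_one]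
      rw [e1]
      have := abs_norm_sub_norm_le (w v * an v θ) 1
      rw [norm_one] at this
      exact this.trans g
    rw [Finset.prod_eq_zero (Finset.mem_univ v)]
    rw [he, measure_empty]

theorem countable_field : Countable K :=
  (Module.finBasis ℚ K).equivFun.toEquiv.injective.countable

end

theorem conj_dist (a c : ℂ) (b : ℝ) :
    ‖a * (b : ℂ) * (starRingEnd ℂ) c - 1‖ = ‖(starRingEnd ℂ) a * (b : ℂ) * c - 1‖ := by
  rw [← RCLike.norm_conj ((starRingEnd ℂ) a * (b : ℂ) * c - 1)]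
  rw [map_sub, map_mul, map_mul, map_one, Complex.conj_conj, Complex.conj_ofReal]

theorem log_norm {a : ℂ} {ρ y : ℝ} (hρ : 0 < ρ) (ha : ‖a‖ = ρ) :
    Real.log ‖a * ((Real.exp y : ℝ) : ℂ)‖ = Real.log ρ + y := by
  rw [norm_mul, ha, Complex.norm_real, Real.norm_of_nonneg (Real.exp_pos _).le,
    Real.log_mul hρ.ne' (Real.exp_pos _).ne', Real.log_exp]

section
variable {K : Type} [Field K] [NumberField K]

open scoped Classical in
/-- the sum over the points -/
theorem sum_points (δ Y τ : ℝ) (M : FI K) (z : logSpace K) (h0 : 0 < δ) (hδ : δ ≤ 1 / 4)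
    (w : K → InfinitePlace K → ℂ) (P : K → (InfinitePlace K → ℝ) → Prop)
    (hP : ∀ x : {x : K // Bl Y M x}, ∀ θ, P x.1 θ ↔ ∀ v, ‖w x.1 v * an v (θ v) - 1‖ ≤ δ)
    (hw : ∀ x : {x : K // Bl Y M x}, (∀ v, |Real.log ‖w x.1 v‖| ≤ 2 * δ) ↔
      Bt (2 * δ) x.1 (yM K M τ z)) :
    ∫⁻ θ in An K, (∑' x : {x : K // Bl Y M x}, if P x.1 θ then (1 : ℝ≥0∞) else 0) ≤
      ENNReal.ofReal ((8 * Real.pi) ^ Module.finrank ℚ K * δ ^ nrComplexPlaces K) *
        NT (2 * δ) Y M τ z := by
  have hcK : Countable K := countable_field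
  have hcB : Countable {x : K // Bl Y M x} := inferInstance
  have h1 : ∀ x : {x : K // Bl Y M x},
      (fun θ : InfinitePlace K → ℝ => (if P x.1 θ then (1 : ℝ≥0∞) else 0)) =
      fun θ => (if ∀ v, ‖w x.1 v * an v (θ v) - 1‖ ≤ δ then (1 : ℝ≥0∞) else 0) := by
    intro x
    funext θ
    exact if_congr (hP x θ) rfl rfl
  have h2 : ∀ x : {x : K // Bl Y M x},
      ∫⁻ θ in An K, (if P x.1 θ then (1 : ℝ≥0∞) else 0) ≤
        ENNReal.ofReal ((8 * Real.pi) ^ Module.finrank ℚ K * δ ^ nrComplexPlaces K) *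
          (if Bt (2 * δ) x.1 (yM K M τ z) then 1 else 0) := by
    intro x
    have h3 := (vol_all (w x.1) h0 hδ).2
    rw [← h1 x] at h3
    refine h3.trans (le_of_eq ?_)
    exact congrArg (fun t => ENNReal.ofReal ((8 * Real.pi) ^ Module.finrank ℚ K *
      δ ^ nrComplexPlaces K) * t) (if_congr (hw x) rfl rfl)
  have h4 : ∫⁻ θ in An K, (∑' x : {x : K // Bl Y M x}, if P x.1 θ then (1 : ℝ≥0∞) else 0) =
      ∑' x : {x : K // Bl Y M x}, ∫⁻ θ in An K, (if P x.1 θ then (1 : ℝ≥0∞) else 0) := by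
    refine lintegral_tsum fun x => Measurable.aemeasurable ?_
    rw [h1 x]
    exact (vol_all (w x.1) h0 hδ).1
  rw [h4]
  unfold NT
  rw [← ENNReal.tsum_mul_left]
  exact ENNReal.tsum_le_tsum h2

theorem th_p (δ Y τ : ℝ) (M : FI K) (z : logSpace K) (h0 : 0 < δ) (hδ : δ ≤ 1 / 4) :
    ∫⁻ θ in An K, NP δ Y M τ z θ ≤
      ENNReal.ofReal ((8 * Real.pi) ^ Module.finrank ℚ K * δ ^ nrComplexPlaces K) *
        NT (2 * δ) Y M τ z := by
  unfold NP
  refine sum_points δ Y τ M z h0 hδ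
    (fun x v => v.embedding x * ((Real.exp (yM K M τ z v / 2) : ℝ) : ℂ))
    (fun x θ => Bp δ x (yM K M τ z) θ) (fun x θ => Iff.rfl) fun x => ?_
  unfold Bt
  refine forall_congr' fun v => ?_
  rw [log_norm (InfinitePlace.pos_iff.2 x.2.2.1) (InfinitePlace.norm_embedding_eq v x.1)]

theorem th_d (δ Y τ : ℝ) (M : FI K) (z : logSpace K) (h0 : 0 < δ) (hδ : δ ≤ 1 / 4) :
    ∫⁻ θ in An K, ND δ Y M τ z θ ≤
      ENNReal.ofReal ((8 * Real.pi) ^ Module.finrank ℚ K * δ ^ nrComplexPlaces K) *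
        NT (2 * δ) Y M τ z := by
  unfold ND
  refine sum_points δ Y τ M z h0 hδ
    (fun x v => (starRingEnd ℂ) (v.embedding x) * ((Real.exp (yM K M τ z v / 2) : ℝ) : ℂ))
    (fun x θ => Bd δ x (yM K M τ z) θ) (fun x θ => ?_) fun x => ?_
  · unfold Bd
    refine forall_congr' fun v => ?_
    rw [conj_dist]
  · unfold Bt
    refine forall_congr' fun v => ?_
    rw [log_norm (InfinitePlace.pos_iff.2 x.2.2.1) (by
      rw [RCLike.norm_conj]
      exact InfinitePlace.norm_embedding_eq v x.1)]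

end

/-- target TH of the board -/
theorem pf_TH : U_TH := by
  intro n _
  refine ⟨(8 * Real.pi) ^ n, by positivity, ?_⟩
  intro K _ _ hn δ Y τ M z h0 hδ _ _
  subst hn
  exact ⟨th_p δ Y τ M z h0 hδ, th_d δ Y τ M z h0 hδ⟩

end Pool.Agent.H33.GLB
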